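import Mathlib

set_option autoImplicit false

/-! # Interlacing of the specialised multivariate Eulerian polynomials -/

namespace Pool.Agent.Results.MP_9d2565_co.EulerianInterlacing

open Equiv Polynomial

/-- The descent set of the word `π(1) ⋯ π(n)`: position `k` (with `1 ≤ k ≤ n - 1`, so that the
`k`-th letter is `π ⟨k - 1, _⟩` and the `(k+1)`-st letter is `π ⟨k, _⟩`) is a descent if the `k`-th
letter is larger than the `(k+1)`-st one. -/
noncomputable def DES {n : ℕ} (π : Perm (Fin n)) : Finset ℕ := by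
  classical
  exact (Finset.Icc 1 (n - 1)).filter
    (fun k => ∃ h : k < n, π ⟨k, h⟩ < π ⟨k - 1, lt_of_le_of_lt (Nat.sub_le k 1) h⟩)

/-- The multivariate Eulerian polynomial `E_n(x_1, …, x_{n-1})`. -/
noncomputable def E (n : ℕ) : MvPolynomial ℕ ℝ :=
  ∑ π : Perm (Fin n), ∏ k ∈ DES π, MvPolynomial.X k

/-- `e_n(t) = E_n(λ_1 t, …, λ_{n-1} t)`. -/
noncomputable def e (lam : ℕ → ℝ) (n : ℕ) : ℝ[X] :=
  MvPolynomial.aeval (fun k => C (lam k) * (X : ℝ[X])) (E n)

/-- The roots of `f` in decreasing order, with multiplicity. -/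
noncomputable def rootList (f : ℝ[X]) : List ℝ := f.roots.sort (· ≥ ·)

/-- All complex roots of `f` are real and `≤ 0` (`f ≠ 0`, and `f` has `deg f` real roots counted with
multiplicity, all of them `≤ 0`). -/
def RealNonposRooted (f : ℝ[X]) : Prop :=
  f ≠ 0 ∧ f.roots.card = f.natDegree ∧ ∀ x ∈ f.roots, x ≤ 0

/-- The relation `f ⪯ g`: both polynomials have only real roots, all `≤ 0`, and the decreasing root
lists satisfy `0 ≥ g₁ ≥ f₁ ≥ g₂ ≥ f₂ ≥ ⋯` (so `g` has as many roots as `f` or one more). -/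
def Prec (f g : ℝ[X]) : Prop :=
  RealNonposRooted f ∧ RealNonposRooted g ∧
  ((rootList g).length = (rootList f).length ∨ (rootList g).length = (rootList f).length + 1) ∧
  (∀ (i : ℕ) (hf : i < (rootList f).length) (hg : i < (rootList g).length),
    (rootList f)[i] ≤ (rootList g)[i]) ∧
  (∀ (i : ℕ) (hf : i < (rootList f).length) (hg : i + 1 < (rootList g).length),
    (rootList g)[i + 1] ≤ (rootList f)[i])

/-! ## The refinement by the last letter -/

/-- Weight of a permutation. -/
noncomputable def wt (lam : ℕ → ℝ) {n : ℕ} (π : Perm (Fin n)) : ℝ[X] :=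
  ∏ k ∈ DES π, (C (lam k) * (X : ℝ[X]))

lemma e_eq (lam : ℕ → ℝ) (n : ℕ) : e lam n = ∑ π : Perm (Fin n), wt lam π := by
  simp [e, E, wt, map_sum, map_prod]

/-- The recursively defined refinement: `F m i` is the part of `e_{m+1}` coming from permutations of
`m + 1` letters whose last letter is the `i`-th smallest one (`i = 0, …, m`). -/
noncomputable def F (lam : ℕ → ℝ) : ℕ → ℕ → ℝ[X]
  | 0, i => if i = 0 then 1 else 0
  | m + 1, i => ∑ j ∈ Finset.range i, F lam m j +
      C (lam (m + 1)) * X * ∑ j ∈ Finset.Ico i (m + 1), F lam m j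

/-- The permutation of `n + 1` letters with last letter `p` and pattern `σ` before it. -/
def glue {n : ℕ} (p : Fin (n + 1)) (σ : Perm (Fin n)) : Perm (Fin (n + 1)) :=
  ((finSuccEquiv' (Fin.last n)).trans (Equiv.optionCongr σ)).trans (finSuccEquiv' p).symm

lemma glue_last {n : ℕ} (p : Fin (n + 1)) (σ : Perm (Fin n)) : glue p σ (Fin.last n) = p := by
  simp [glue]

lemma glue_castSucc {n : ℕ} (p : Fin (n + 1)) (σ : Perm (Fin n)) (k : Fin n) :
    glue p σ k.castSucc = p.succAbove (σ k) := by
  have h : (finSuccEquiv' (Fin.last n)) k.castSucc = some k := by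
    rw [← Fin.succAbove_last_apply k]
    exact finSuccEquiv'_succAbove _ _
  simp [glue, h]

lemma glue_injective {n : ℕ} :
    Function.Injective (fun q : Fin (n + 1) × Perm (Fin n) => glue q.1 q.2) := by
  rintro ⟨p, σ⟩ ⟨p', σ'⟩ h
  simp only at h
  have h1 : p = p' := by
    have := congrArg (fun π : Perm (Fin (n + 1)) => π (Fin.last n)) h
    simpa [glue_last] using this
  subst h1
  have h2 : σ = σ' := by
    ext k
    have := congrArg (fun π : Perm (Fin (n + 1)) => π k.castSucc) h
    simp only [glue_castSucc] at this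
    rw [Fin.succAbove_right_injective this]
  rw [h2]

lemma glue_bijective {n : ℕ} :
    Function.Bijective (fun q : Fin (n + 1) × Perm (Fin n) => glue q.1 q.2) := by
  rw [Fintype.bijective_iff_injective_and_card]
  refine ⟨glue_injective, ?_⟩
  simp [Fintype.card_perm, Nat.factorial_succ]

lemma sum_glue {n : ℕ} {M : Type*} [AddCommMonoid M] (f : Perm (Fin (n + 1)) → M) :
    ∑ π : Perm (Fin (n + 1)), f π = ∑ p : Fin (n + 1), ∑ σ : Perm (Fin n), f (glue p σ) := by
  rw [← Fintype.sum_prod_type' (fun p σ => f (glue p σ))]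
  exact (Fintype.sum_bijective _ glue_bijective _ _ (fun _ => rfl)).symm

lemma wt_glue (lam : ℕ → ℝ) {m : ℕ} (p : Fin (m + 2)) (σ : Perm (Fin (m + 1))) :
    wt lam (glue p σ) = wt lam σ *
      (if (p : ℕ) ≤ (σ (Fin.last m) : ℕ) then C (lam (m + 1)) * X else 1) := by
  classical
  unfold wt DES
  rw [Finset.prod_filter, Finset.prod_filter]
  have hI : Finset.Icc 1 (m + 2 - 1) = insert (m + 1) (Finset.Icc 1 (m + 1 - 1)) := by
    ext x; simp only [Finset.mem_Icc, Finset.mem_insert]; omega
  rw [hI, Finset.prod_insert (by simp), mul_comm]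
  congr 1
  · refine Finset.prod_congr rfl (fun k hk => ?_)
    rw [Finset.mem_Icc] at hk
    have hk1 : k < m + 1 := by omega
    have hk2 : k - 1 < m + 1 := by omega
    have e1 : glue p σ ⟨k, by omega⟩ = p.succAbove (σ ⟨k, hk1⟩) := by
      rw [← glue_castSucc]; rfl
    have e2 : glue p σ ⟨k - 1, by omega⟩ = p.succAbove (σ ⟨k - 1, hk2⟩) := by
      rw [← glue_castSucc]; rfl
    have hiff : (∃ h : k < m + 2, glue p σ ⟨k, h⟩ < glue p σ
        ⟨k - 1, lt_of_le_of_lt (Nat.sub_le k 1) h⟩) ↔
        (∃ h : k < m + 1, σ ⟨k, h⟩ < σ ⟨k - 1, lt_of_le_of_lt (Nat.sub_le k 1) h⟩) := by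
      constructor
      · rintro ⟨_, h⟩
        refine ⟨hk1, ?_⟩
        rw [e1, e2] at h
        exact (Fin.succAbove_lt_succAbove_iff).1 h
      · rintro ⟨_, h⟩
        refine ⟨by omega, ?_⟩
        rw [e1, e2]
        exact (Fin.succAbove_lt_succAbove_iff).2 h
    simp only [hiff]
  · have e1 : glue p σ ⟨m + 1, by omega⟩ = p := glue_last p σ
    have e2 : glue p σ ⟨m + 1 - 1, by omega⟩ = p.succAbove (σ (Fin.last m)) := by
      rw [← glue_castSucc]; rfl
    have hiff : (∃ h : m + 1 < m + 2, glue p σ ⟨m + 1, h⟩ < glue p σ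
        ⟨m + 1 - 1, lt_of_le_of_lt (Nat.sub_le (m + 1) 1) h⟩) ↔
        (p : ℕ) ≤ (σ (Fin.last m) : ℕ) := by
      constructor
      · rintro ⟨_, h⟩
        rw [e1, e2] at h
        have := (Fin.lt_succAbove_iff_le_castSucc _ _).1 h
        exact_mod_cast this
      · intro h
        refine ⟨by omega, ?_⟩
        rw [e1, e2]
        refine (Fin.lt_succAbove_iff_le_castSucc _ _).2 ?_
        exact_mod_cast h
    simp only [hiff]

lemma F_eq (lam : ℕ → ℝ) (m : ℕ) (i : Fin (m + 1)) :
    F lam m i = ∑ σ : Perm (Fin (m + 1)), if σ (Fin.last m) = i then wt lam σ else 0 := by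
  classical
  induction m with
  | zero =>
    have h1 : Subsingleton (Fin (0 + 1)) := inferInstanceAs (Subsingleton (Fin 1))
    have h2 : Subsingleton (Perm (Fin (0 + 1))) := inferInstanceAs (Subsingleton (Perm (Fin 1)))
    have hi : i = 0 := Subsingleton.elim _ _
    subst hi
    have : (Finset.univ : Finset (Perm (Fin (0 + 1)))) = {1} := by
      ext x; simp only [Finset.mem_univ, Finset.mem_singleton, true_iff]
      exact Subsingleton.elim _ _
    rw [this, Finset.sum_singleton, if_pos (Subsingleton.elim _ _)]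
    simp [F, wt, DES]
  | succ m ih =>
    rw [sum_glue]
    simp only [glue_last]
    rw [Finset.sum_eq_single i]
    · simp only [if_true]
      simp only [wt_glue]
      -- split according to the last letter of `σ`
      have h1 : ∀ σ : Perm (Fin (m + 1)), wt lam σ *
          (if (i : ℕ) ≤ (σ (Fin.last m) : ℕ) then C (lam (m + 1)) * X else 1) =
          ∑ j : Fin (m + 1), (if σ (Fin.last m) = j then wt lam σ else 0) *
            (if (i : ℕ) ≤ (j : ℕ) then C (lam (m + 1)) * X else 1) := by
        intro σ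
        rw [Finset.sum_eq_single (σ (Fin.last m))]
        · simp
        · intro j _ hj
          rw [if_neg (Ne.symm hj), zero_mul]
        · intro h; exact absurd (Finset.mem_univ _) h
      rw [Finset.sum_congr rfl (fun σ _ => h1 σ), Finset.sum_comm]
      simp only [← Finset.sum_mul, ← ih]
      rw [Fin.sum_univ_eq_sum_range
        (fun j => F lam m j * (if (i : ℕ) ≤ j then C (lam (m + 1)) * X else 1)) (m + 1)]
      have hi : (i : ℕ) ≤ m + 1 := Nat.lt_succ_iff.1 i.2
      rw [← Finset.sum_range_add_sum_Ico _ hi]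
      show _ + _ = _
      congr 1
      · refine Finset.sum_congr rfl (fun j hj => ?_)
        rw [Finset.mem_range] at hj
        rw [if_neg (by omega), mul_one]
      · rw [Finset.mul_sum]
        refine Finset.sum_congr rfl (fun j hj => ?_)
        rw [Finset.mem_Ico] at hj
        rw [if_pos hj.1, mul_comm]
    · intro p _ hp
      refine Finset.sum_eq_zero (fun σ _ => ?_)
      rw [if_neg hp]
    · intro h; exact absurd (Finset.mem_univ _) h

/-- `T m = e_{m+1}`. -/
noncomputable def T (lam : ℕ → ℝ) (m : ℕ) : ℝ[X] := ∑ i ∈ Finset.range (m + 1), F lam m i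

lemma T_eq (lam : ℕ → ℝ) (m : ℕ) : T lam m = e lam (m + 1) := by
  classical
  rw [e_eq, T, ← Fin.sum_univ_eq_sum_range (fun i => F lam m i) (m + 1)]
  simp only [F_eq]
  rw [Finset.sum_comm]
  refine Finset.sum_congr rfl (fun σ _ => ?_)
  simp

lemma F_succ_last (lam : ℕ → ℝ) (m : ℕ) : F lam (m + 1) (m + 1) = T lam m := by
  simp [F, T]

lemma F_succ_zero (lam : ℕ → ℝ) (m : ℕ) :
    F lam (m + 1) 0 = C (lam (m + 1)) * X * T lam m := by
  show ∑ j ∈ Finset.range 0, F lam m j +
      C (lam (m + 1)) * X * ∑ j ∈ Finset.Ico 0 (m + 1), F lam m j = _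
  rw [Finset.sum_range_zero, zero_add, ← Finset.range_eq_Ico]
  rfl

/-! ## Wronskian inequalities -/

/-- The Wronskian of `f` and `g` at `t`. -/
noncomputable def w (t : ℝ) (f g : ℝ[X]) : ℝ :=
  (derivative g).eval t * f.eval t - g.eval t * (derivative f).eval t

lemma w_sum_nonneg (t : ℝ) (s s' : Finset ℕ) (f g : ℕ → ℝ[X])
    (h : ∀ k ∈ s, ∀ l ∈ s', 0 ≤ w t (f k) (g l)) :
    0 ≤ w t (∑ k ∈ s, f k) (∑ l ∈ s', g l) := by
  have h1 : w t (∑ k ∈ s, f k) (∑ l ∈ s', g l) = ∑ l ∈ s', ∑ k ∈ s, w t (f k) (g l) := by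
    simp only [w, derivative_sum, eval_finsetSum, Finset.sum_mul_sum, Finset.sum_sub_distrib]
  rw [h1]
  exact Finset.sum_nonneg (fun l hl => Finset.sum_nonneg (fun k hk => h k hk l hl))

lemma w_step (t l : ℝ) (hl : 0 < l) (P A Y : ℝ[X]) (A1 : 0 ≤ w t A P) (A3 : 0 ≤ w t P (X * A))
    (A4 : 0 ≤ w t A (X * Y)) (A5 : 0 ≤ w t Y A) :
    0 ≤ w t ((P + A) + C l * X * Y) (P + C l * X * (A + Y)) ∧
    0 ≤ w t (P + C l * X * (A + Y)) (X * ((P + A) + C l * X * Y)) := by
  have e1 : w t ((P + A) + C l * X * Y) (P + C l * X * (A + Y)) =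
      l * (w t P (X * A) + l * t ^ 2 * w t Y A) + w t A P +
      l * w t A (X * Y) + l * (A.eval t) ^ 2 := by
    simp only [w, derivative_add, derivative_mul, derivative_C, derivative_X, eval_add, eval_mul,
      eval_C, eval_X, eval_zero, eval_one]
    ring
  have e2 : w t (P + C l * X * (A + Y)) (X * ((P + A) + C l * X * Y)) =
      (P.eval t + l * t * Y.eval t) ^ 2 + (w t P (X * A) + l * t ^ 2 * w t Y A) +
      l * t ^ 2 * (w t A P + l * w t A (X * Y)) := by
    simp only [w, derivative_add, derivative_mul, derivative_C, derivative_X, eval_add, eval_mul,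
      eval_C, eval_X, eval_zero, eval_one]
    ring
  rw [e1, e2]
  generalize w t A P = a1 at *
  generalize w t P (X * A) = a3 at *
  generalize w t A (X * Y) = a4 at *
  generalize w t Y A = a5 at *
  constructor <;> positivity

lemma wronskian_ineq (lam : ℕ → ℝ) (hlam : ∀ k, 1 ≤ k → 0 < lam k) (t : ℝ) (m : ℕ) :
    (∀ i j, i ≤ j → j ≤ m → 0 ≤ w t (F lam m j) (F lam m i)) ∧
    (∀ i j, i ≤ j → j ≤ m → 0 ≤ w t (F lam m i) (X * F lam m j)) := by
  induction m with
  | zero =>
    refine ⟨fun i j hij hj => ?_, fun i j hij hj => ?_⟩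
    · have h1 : j = 0 := by omega
      have h2 : i = 0 := by omega
      subst h1; subst h2
      simp [F, w]
    · have h1 : j = 0 := by omega
      have h2 : i = 0 := by omega
      subst h1; subst h2
      simp [F, w]
  | succ m ih =>
    obtain ⟨iha, ihb⟩ := ih
    have hl := hlam (m + 1) (by omega)
    have main : ∀ i j, i ≤ j → j ≤ m + 1 →
        0 ≤ w t (F lam (m + 1) j) (F lam (m + 1) i) ∧
        0 ≤ w t (F lam (m + 1) i) (X * F lam (m + 1) j) := by
      intro i j hij hj
      set P : ℝ[X] := ∑ k ∈ Finset.range i, F lam m k with hP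
      set A : ℝ[X] := ∑ k ∈ Finset.Ico i j, F lam m k with hA
      set Y : ℝ[X] := ∑ k ∈ Finset.Ico j (m + 1), F lam m k with hY
      have hi' : F lam (m + 1) i = P + C (lam (m + 1)) * X * (A + Y) := by
        rw [hA, hY, Finset.sum_Ico_consecutive _ hij hj]
        rfl
      have hj' : F lam (m + 1) j = (P + A) + C (lam (m + 1)) * X * Y := by
        rw [hP, hA, Finset.sum_range_add_sum_Ico _ hij]
        rfl
      have A1 : 0 ≤ w t A P := by
        apply w_sum_nonneg
        intro k hk l hl'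
        rw [Finset.mem_Ico] at hk
        rw [Finset.mem_range] at hl'
        exact iha l k (by omega) (by omega)
      have A3 : 0 ≤ w t P (X * A) := by
        rw [hA, Finset.mul_sum]
        apply w_sum_nonneg
        intro k hk l hl'
        rw [Finset.mem_range] at hk
        rw [Finset.mem_Ico] at hl'
        exact ihb k l (by omega) (by omega)
      have A4 : 0 ≤ w t A (X * Y) := by
        rw [hY, Finset.mul_sum]
        apply w_sum_nonneg
        intro k hk l hl'
        rw [Finset.mem_Ico] at hk hl'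
        exact ihb k l (by omega) (by omega)
      have A5 : 0 ≤ w t Y A := by
        apply w_sum_nonneg
        intro k hk l hl'
        rw [Finset.mem_Ico] at hk hl'
        exact iha l k (by omega) (by omega)
      rw [hi', hj']
      exact w_step t _ hl P A Y A1 A3 A4 A5
    exact ⟨fun i j hij hj => (main i j hij hj).1, fun i j hij hj => (main i j hij hj).2⟩

lemma F_nonneg (lam : ℕ → ℝ) (hlam : ∀ k, 1 ≤ k → 0 < lam k) (t : ℝ) (ht : 0 ≤ t) (m i : ℕ) :
    0 ≤ (F lam m i).eval t := by
  induction m generalizing i with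
  | zero => by_cases h : i = 0 <;> simp [F, h]
  | succ m ih =>
    have hl := (hlam (m + 1) (by omega)).le
    show 0 ≤ (∑ j ∈ Finset.range i, F lam m j +
      C (lam (m + 1)) * X * ∑ j ∈ Finset.Ico i (m + 1), F lam m j).eval t
    simp only [eval_add, eval_mul, eval_C, eval_X, eval_finsetSum]
    have h1 : 0 ≤ ∑ j ∈ Finset.range i, (F lam m j).eval t :=
      Finset.sum_nonneg (fun j _ => ih j)
    have h2 : 0 ≤ ∑ j ∈ Finset.Ico i (m + 1), (F lam m j).eval t :=
      Finset.sum_nonneg (fun j _ => ih j)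
    positivity

lemma T_pos (lam : ℕ → ℝ) (hlam : ∀ k, 1 ≤ k → 0 < lam k) (t : ℝ) (ht : 0 ≤ t) (m : ℕ) :
    0 < (T lam m).eval t := by
  induction m with
  | zero => simp [T, F]
  | succ m ih =>
    unfold T
    rw [Finset.sum_range_succ, F_succ_last, eval_add, eval_finsetSum]
    have h1 : 0 ≤ ∑ j ∈ Finset.range (m + 1), (F lam (m + 1) j).eval t :=
      Finset.sum_nonneg (fun j _ => F_nonneg lam hlam t ht _ j)
    linarith

lemma wT_eq (lam : ℕ → ℝ) (t : ℝ) (m : ℕ) :
    w t (T lam m) (T lam (m + 1)) =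
      ∑ i ∈ Finset.range (m + 2), w t (F lam (m + 1) (m + 1)) (F lam (m + 1) i) := by
  rw [← F_succ_last]
  conv_lhs => rw [T]
  simp only [w, derivative_sum, eval_finsetSum, Finset.sum_mul, Finset.sum_sub_distrib]

lemma wT_ge (lam : ℕ → ℝ) (hlam : ∀ k, 1 ≤ k → 0 < lam k) (t : ℝ) (m i : ℕ) (hi : i ≤ m + 1) :
    w t (T lam m) (F lam (m + 1) i) ≤ w t (T lam m) (T lam (m + 1)) := by
  rw [wT_eq, ← F_succ_last]
  refine Finset.single_le_sum (f := fun i => w t (F lam (m + 1) (m + 1)) (F lam (m + 1) i))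
    (fun j hj => ?_) (Finset.mem_range.2 (by omega))
  rw [Finset.mem_range] at hj
  exact (wronskian_ineq lam hlam t (m + 1)).1 j (m + 1) (by omega) le_rfl

lemma wT_pos (lam : ℕ → ℝ) (hlam : ∀ k, 1 ≤ k → 0 < lam k) (t : ℝ) (m : ℕ) :
    0 < w t (T lam m) (T lam (m + 1)) := by
  induction m with
  | zero =>
    have h := hlam 1 le_rfl
    have e1 : T lam 0 = 1 := by simp [T, F]
    have e2 : T lam 1 = C (lam 1) * X + 1 := by
      rw [T, Finset.sum_range_succ, Finset.sum_range_succ, Finset.sum_range_zero, F_succ_last,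
        F_succ_zero, e1]
      ring
    rw [e1, zero_add, e2]
    simpa [w] using h
  | succ m ih =>
    by_cases h0 : (T lam (m + 1)).eval t = 0
    · have ht : t < 0 := by
        by_contra hcon
        push Not at hcon
        exact absurd h0 (T_pos lam hlam t hcon (m + 1)).ne'
      refine lt_of_lt_of_le ?_ (wT_ge lam hlam t (m + 1) 1 (by omega))
      have e1 : F lam (m + 1 + 1) 1 = F lam (m + 1) 0 + C (lam (m + 1 + 1)) * X *
          (T lam (m + 1) - F lam (m + 1) 0) := by
        have : ∑ j ∈ Finset.Ico 1 (m + 1 + 1), F lam (m + 1) j =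
            T lam (m + 1) - F lam (m + 1) 0 := by
          have h5 := Finset.sum_eq_sum_Ico_succ_bot (show 0 < m + 1 + 1 by omega)
            (fun j => F lam (m + 1) j)
          rw [T, Finset.range_eq_Ico, h5]
          ring
        show ∑ j ∈ Finset.range 1, F lam (m + 1) j + C (lam (m + 1 + 1)) * X *
          ∑ j ∈ Finset.Ico 1 (m + 1 + 1), F lam (m + 1) j = _
        rw [this, Finset.sum_range_one]
      rw [e1, F_succ_zero]
      have key : w t (T lam (m + 1)) (C (lam (m + 1)) * X * T lam m + C (lam (m + 1 + 1)) * X *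
          (T lam (m + 1) - C (lam (m + 1)) * X * T lam m)) =
          (1 - lam (m + 2) * t) * (-(lam (m + 1) * t)) * w t (T lam m) (T lam (m + 1)) +
          (T lam (m + 1)).eval t * (lam (m + 1) * (T lam m).eval t
            + lam (m + 2) * (T lam (m + 1)).eval t
            - 2 * lam (m + 2) * lam (m + 1) * t * (T lam m).eval t) := by
        simp only [w, derivative_add, derivative_mul, derivative_sub, derivative_C, derivative_X,
          eval_add, eval_mul, eval_sub, eval_C, eval_X, eval_zero, eval_one]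
        ring
      rw [key, h0, zero_mul, add_zero]
      have h1 := hlam (m + 1) (by omega)
      have h2 := hlam (m + 2) (by omega)
      have h3 : 0 < 1 - lam (m + 2) * t := by nlinarith
      have h4 : 0 < -(lam (m + 1) * t) := by nlinarith
      positivity
    · refine lt_of_lt_of_le ?_ (wT_ge lam hlam t (m + 1) 0 (by omega))
      rw [F_succ_zero]
      have key : w t (T lam (m + 1)) (C (lam (m + 1 + 1)) * X * T lam (m + 1)) =
          lam (m + 1 + 1) * (T lam (m + 1)).eval t ^ 2 := by
        simp only [w, derivative_mul, derivative_C, derivative_X, eval_add, eval_mul, eval_C, eval_X,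
          eval_zero, eval_one]
        ring
      rw [key]
      have h2 := hlam (m + 1 + 1) (by omega)
      positivity

/-! ## Degrees and leading coefficients -/

lemma F_natDegree (lam : ℕ → ℝ) (m i : ℕ) : (F lam m i).natDegree ≤ m := by
  induction m generalizing i with
  | zero => by_cases h : i = 0 <;> simp [F, h]
  | succ m ih =>
    show (∑ j ∈ Finset.range i, F lam m j +
      C (lam (m + 1)) * X * ∑ j ∈ Finset.Ico i (m + 1), F lam m j).natDegree ≤ m + 1
    refine natDegree_add_le_of_degree_le ?_ ?_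
    · exact natDegree_sum_le_of_forall_le _ _ (fun j _ => (ih j).trans (Nat.le_succ m))
    · have h1 : (C (lam (m + 1)) * (X : ℝ[X])).natDegree ≤ 1 := by compute_degree
      have h2 : (∑ j ∈ Finset.Ico i (m + 1), F lam m j).natDegree ≤ m :=
        natDegree_sum_le_of_forall_le _ _ (fun j _ => ih j)
      refine natDegree_mul_le.trans ?_
      omega

lemma F_coeff_nonneg (lam : ℕ → ℝ) (hlam : ∀ k, 1 ≤ k → 0 < lam k) (m i k : ℕ) :
    0 ≤ (F lam m i).coeff k := by
  induction m generalizing i k with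
  | zero => by_cases h : i = 0 <;> by_cases hk : k = 0 <;> simp [F, h, coeff_one, hk]
  | succ m ih =>
    have hl := (hlam (m + 1) (by omega)).le
    show 0 ≤ (∑ j ∈ Finset.range i, F lam m j +
      C (lam (m + 1)) * X * ∑ j ∈ Finset.Ico i (m + 1), F lam m j).coeff k
    rw [coeff_add, finsetSum_coeff, mul_assoc, coeff_C_mul]
    have h1 : 0 ≤ ∑ j ∈ Finset.range i, (F lam m j).coeff k :=
      Finset.sum_nonneg (fun j _ => ih j k)
    have h2 : 0 ≤ (X * ∑ j ∈ Finset.Ico i (m + 1), F lam m j).coeff k := by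
      cases k with
      | zero => simp
      | succ k =>
        rw [coeff_X_mul, finsetSum_coeff]
        exact Finset.sum_nonneg (fun j _ => ih j k)
    positivity

lemma T_coeff_pos (lam : ℕ → ℝ) (hlam : ∀ k, 1 ≤ k → 0 < lam k) (m : ℕ) :
    0 < (T lam m).coeff m := by
  induction m with
  | zero => simp [T, F]
  | succ m ih =>
    have hl := hlam (m + 1) (by omega)
    rw [T, finsetSum_coeff]
    have h1 : (F lam (m + 1) 0).coeff (m + 1) ≤
        ∑ i ∈ Finset.range (m + 1 + 1), (F lam (m + 1) i).coeff (m + 1) :=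
      Finset.single_le_sum (f := fun i => (F lam (m + 1) i).coeff (m + 1))
        (fun j _ => F_coeff_nonneg lam hlam _ _ _) (Finset.mem_range.2 (by omega))
    refine lt_of_lt_of_le ?_ h1
    rw [F_succ_zero, mul_assoc, coeff_C_mul, coeff_X_mul]
    positivity

lemma T_natDegree (lam : ℕ → ℝ) (hlam : ∀ k, 1 ≤ k → 0 < lam k) (m : ℕ) :
    (T lam m).natDegree = m := by
  refine natDegree_eq_of_le_of_coeff_ne_zero ?_ (T_coeff_pos lam hlam m).ne'
  exact natDegree_sum_le_of_forall_le _ _ (fun j _ => F_natDegree lam m j)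

lemma T_leadingCoeff (lam : ℕ → ℝ) (hlam : ∀ k, 1 ≤ k → 0 < lam k) (m : ℕ) :
    0 < (T lam m).leadingCoeff := by
  rw [leadingCoeff, T_natDegree lam hlam]
  exact T_coeff_pos lam hlam m

/-! ## Root lists -/

/-- `f` has degree `m`, positive leading coefficient and the `m` distinct negative roots
`r 0 > r 1 > ⋯ > r (m - 1)`. -/
def Fac (f : ℝ[X]) (m : ℕ) (r : ℕ → ℝ) : Prop :=
  f.natDegree = m ∧ 0 < f.leadingCoeff ∧ f.roots = Multiset.map r (Multiset.range m) ∧
  (∀ i j, i < j → j < m → r j < r i) ∧ (∀ j, j < m → r j < 0)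

lemma Fac.eq {f : ℝ[X]} {m : ℕ} {r : ℕ → ℝ} (h : Fac f m r) :
    f = C f.leadingCoeff * ∏ j ∈ Finset.range m, (X - C (r j)) := by
  obtain ⟨h1, h2, h3, _, _⟩ := h
  have hc : Multiset.card f.roots = f.natDegree := by rw [h3, h1]; simp
  have := C_leadingCoeff_mul_prod_multiset_X_sub_C hc
  rw [h3, Multiset.map_map] at this
  exact this.symm

lemma sign_prod (i : ℕ) (r : ℕ → ℝ) (x : ℝ) (h : ∀ j, j < i → x < r j) :
    0 < (-1) ^ i * ∏ j ∈ Finset.range i, (x - r j) := by
  induction i with
  | zero => simp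
  | succ i ih =>
    rw [Finset.prod_range_succ, pow_succ]
    have h1 := ih (fun j hj => h j (by omega))
    have h2 := h i (by omega)
    have h3 : 0 < -(x - r i) := by linarith
    nlinarith [mul_pos h1 h3]

lemma sign_deriv {f : ℝ[X]} {m : ℕ} {r : ℕ → ℝ} (h : Fac f m r) (i : ℕ) (hi : i < m) :
    f.eval (r i) = 0 ∧ 0 < (-1) ^ i * (derivative f).eval (r i) := by
  have hf := h.eq
  obtain ⟨_, h2, _, h4, _⟩ := h
  set c := f.leadingCoeff with hc
  have hsplit : ∏ j ∈ Finset.range m, (X - C (r j)) =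
      (∏ j ∈ Finset.range i, (X - C (r j))) * (∏ j ∈ Finset.Ico (i + 1) m, (X - C (r j))) *
        (X - C (r i)) := by
    rw [← Finset.prod_range_mul_prod_Ico _ (show i + 1 ≤ m by omega), Finset.prod_range_succ]
    ring
  rw [hsplit] at hf
  have hval : f.eval (r i) = 0 := by rw [hf]; simp
  refine ⟨hval, ?_⟩
  have hder : (derivative f).eval (r i) = c * ((∏ j ∈ Finset.range i, (r i - r j)) *
      ∏ j ∈ Finset.Ico (i + 1) m, (r i - r j)) := by
    rw [hf]
    rw [← mul_assoc, derivative_mul]
    simp [eval_prod]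
  rw [hder]
  have h5 := sign_prod i r (r i) (fun j hj => h4 j i hj hi)
  have h6 : 0 < ∏ j ∈ Finset.Ico (i + 1) m, (r i - r j) := by
    refine Finset.prod_pos (fun j hj => ?_)
    rw [Finset.mem_Ico] at hj
    have := h4 i j (by omega) hj.2
    linarith
  have h7 : (-1) ^ i * (c * ((∏ j ∈ Finset.range i, (r i - r j)) *
      ∏ j ∈ Finset.Ico (i + 1) m, (r i - r j))) = c * ((-1) ^ i *
      ∏ j ∈ Finset.range i, (r i - r j)) * ∏ j ∈ Finset.Ico (i + 1) m, (r i - r j) := by ring
  rw [h7]
  positivity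

lemma sign_neg_infty (g : ℝ[X]) (m : ℕ) (hdeg : g.natDegree = m + 1) (hlc : 0 < g.leadingCoeff)
    (B : ℝ) : ∃ M, M < B ∧ 0 < (-1) ^ (m + 1) * g.eval M := by
  set P : ℝ[X] := C ((-1 : ℝ) ^ (m + 1)) * g.comp (-X) with hP
  have hX : (-X : ℝ[X]).natDegree = 1 := by simp
  have hlc' : (g.comp (-X)).leadingCoeff = g.leadingCoeff * (-1) ^ (m + 1) := by
    rw [leadingCoeff_comp (by rw [hX]; exact one_ne_zero), hdeg]; simp
  have hdeg' : (g.comp (-X)).natDegree = m + 1 := by
    rw [natDegree_comp, hX, hdeg, mul_one]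
  have hne : ((-1 : ℝ)) ^ (m + 1) ≠ 0 := pow_ne_zero _ (by norm_num)
  have hPlc : P.leadingCoeff = g.leadingCoeff := by
    rw [hP, leadingCoeff_mul, leadingCoeff_C, hlc']
    have : ((-1 : ℝ)) ^ (m + 1) * (-1) ^ (m + 1) = 1 := by
      rw [← mul_pow]; norm_num
    linear_combination g.leadingCoeff * this
  have hPdeg : P.natDegree = m + 1 := by
    rw [hP, natDegree_C_mul hne, hdeg']
  have hPdeg' : 0 < P.degree := by
    apply natDegree_pos_iff_degree_pos.1
    omega
  have ht := tendsto_atTop_of_leadingCoeff_nonneg P hPdeg' (by rw [hPlc]; exact hlc.le)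
  obtain ⟨x, hx1, hx2⟩ := ((ht.eventually_gt_atTop 0).and
    (Filter.eventually_gt_atTop (-B))).exists
  refine ⟨-x, by linarith, ?_⟩
  simpa [hP, eval_comp] using hx1

lemma step {f g : ℝ[X]} {m : ℕ} {r : ℕ → ℝ} (hf : Fac f m r) (hdeg : g.natDegree = m + 1)
    (hlc : 0 < g.leadingCoeff) (h0 : 0 < g.eval 0) (hw : ∀ t, 0 < w t f g) :
    ∃ s : ℕ → ℝ, Fac g (m + 1) s ∧ (∀ i, i < m → r i < s i) ∧ (∀ i, i < m → s (i + 1) < r i) := by
  classical
  have hd := sign_deriv hf
  obtain ⟨hf1, hf2, hf3, hf4, hf5⟩ := hf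
  -- the test points
  obtain ⟨M, hM1, hM2⟩ := sign_neg_infty g m hdeg hlc
    (if m = 0 then 0 else r (m - 1))
  set p : ℕ → ℝ := fun k => if k = 0 then 0 else if k ≤ m then r (k - 1) else M with hp
  have hp0 : p 0 = 0 := by simp [hp]
  have hpr : ∀ i, i < m → p (i + 1) = r i := by
    intro i hi
    simp only [hp]
    rw [if_neg (by omega), if_pos (by omega)]
    rfl
  have hpM : p (m + 1) = M := by
    simp only [hp]
    rw [if_neg (by omega), if_neg (by omega)]
  have hsign : ∀ i, i ≤ m + 1 → 0 < (-1) ^ i * g.eval (p i) := by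
    intro i hi
    rcases Nat.eq_zero_or_pos i with rfl | hi0
    · rw [hp0]; simpa using h0
    · obtain ⟨k, rfl⟩ : ∃ k, i = k + 1 := ⟨i - 1, by omega⟩
      by_cases hk : k < m
      · rw [hpr k hk]
        obtain ⟨ha, hb⟩ := hd k hk
        have hc := hw (r k)
        rw [w, ha, mul_zero, zero_sub] at hc
        have hsq : ((-1 : ℝ) ^ k) * (-1) ^ k = 1 := by rw [← mul_pow]; norm_num
        have e1 : 0 < ((-1) ^ (k + 1) * g.eval (r k)) * ((-1) ^ k * (derivative f).eval (r k)) := by
          have : ((-1) ^ (k + 1) * g.eval (r k)) * ((-1) ^ k * (derivative f).eval (r k)) =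
              -(g.eval (r k) * (derivative f).eval (r k)) := by
            rw [pow_succ]
            linear_combination (-(g.eval (r k) * (derivative f).eval (r k))) * hsq
          rw [this]; exact hc
        exact (pos_iff_pos_of_mul_pos e1).2 hb
      · have : k = m := by omega
        subst this
        rw [hpM]; exact hM2
  have hdec : ∀ i, i ≤ m → p (i + 1) < p i := by
    intro i hi
    by_cases him : i < m
    · rw [hpr i him]
      rcases Nat.eq_zero_or_pos i with rfl | hi0
      · rw [hp0]; exact hf5 0 him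
      · obtain ⟨k, rfl⟩ : ∃ k, i = k + 1 := ⟨i - 1, by omega⟩
        rw [hpr k (by omega)]
        exact hf4 k (k + 1) (by omega) him
    · have : i = m := by omega
      subst this
      rw [hpM]
      by_cases hm : i = 0
      · subst hm
        rw [hp0]; simpa using hM1
      · rw [if_neg hm] at hM1
        obtain ⟨k, rfl⟩ : ∃ k, i = k + 1 := ⟨i - 1, by omega⟩
        rw [hpr k (by omega)]
        simpa using hM1
  -- the roots
  have hroot : ∀ i, i ≤ m → ∃ x, p (i + 1) < x ∧ x < p i ∧ g.eval x = 0 := by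
    intro i hi
    have ha := hsign i (by omega)
    have hb := hsign (i + 1) (by omega)
    have hlt := hdec i hi
    rw [pow_succ] at hb
    have hsq : ((-1 : ℝ) ^ i) * (-1) ^ i = 1 := by rw [← mul_pow]; norm_num
    set h : ℝ → ℝ := fun x => (-1) ^ i * g.eval x with hh
    have hcont : ContinuousOn h (Set.Icc (p (i + 1)) (p i)) :=
      (continuous_const.mul g.continuous).continuousOn
    have h1 : h (p (i + 1)) < 0 := by
      simp only [hh]; linarith
    have h2 : 0 < h (p i) := ha
    obtain ⟨x, hx, hx0⟩ := intermediate_value_Ioo hlt.le hcont ⟨h1, h2⟩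
    refine ⟨x, hx.1, hx.2, ?_⟩
    simp only [hh] at hx0
    rcases mul_eq_zero.1 hx0 with h3 | h3
    · exact absurd h3 (pow_ne_zero _ (by norm_num))
    · exact h3
  choose! s hs1 hs2 hs3 using hroot
  have hsdec1 : ∀ i, i < m → s (i + 1) < s i := by
    intro i hi
    exact (hs2 (i + 1) (by omega)).trans (hs1 i (by omega))
  have hsdec : ∀ i j, i < j → j < m + 1 → s j < s i := by
    intro i j hij
    induction j, hij using Nat.le_induction with
    | base => intro hj; exact hsdec1 i (by omega)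
    | succ j hj ih =>
      intro hj'
      exact (hsdec1 j (by omega)).trans (ih (by omega))
  have hsneg : ∀ j, j < m + 1 → s j < 0 := by
    intro j hj
    have h00 : s 0 < 0 := by have := hs2 0 (by omega); rwa [hp0] at this
    rcases Nat.eq_zero_or_pos j with rfl | hj0
    · exact h00
    · exact (hsdec 0 j hj0 hj).trans h00
  have hg0 : g ≠ 0 := by
    intro h; rw [h] at hlc; simp at hlc
  refine ⟨s, ⟨hdeg, hlc, ?_, hsdec, hsneg⟩, ?_, ?_⟩
  · symm
    apply Multiset.eq_of_le_of_card_le
    · rw [Multiset.le_iff_subset]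
      · intro x hx
        rw [Multiset.mem_map] at hx
        obtain ⟨i, hi, rfl⟩ := hx
        rw [Multiset.mem_range] at hi
        rw [mem_roots hg0]
        exact hs3 i (by omega)
      · refine Multiset.Nodup.map_on ?_ (Multiset.nodup_range _)
        intro a ha b hb hab
        rw [Multiset.mem_range] at ha hb
        by_contra hne
        rcases lt_or_gt_of_ne hne with h | h
        · exact absurd hab (hsdec a b h hb).ne'
        · exact absurd hab (hsdec b a h ha).ne
    · rw [Multiset.card_map, Multiset.card_range, ← hdeg]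
      exact card_roots' g
  · intro i hi
    have := hs1 i (by omega)
    rwa [hpr i hi] at this
  · intro i hi
    have := hs2 (i + 1) (by omega)
    rwa [hpr i hi] at this

lemma T_fac (lam : ℕ → ℝ) (hlam : ∀ k, 1 ≤ k → 0 < lam k) (m : ℕ) :
    ∃ r : ℕ → ℝ, Fac (T lam m) m r := by
  induction m with
  | zero =>
    refine ⟨fun _ => 0, T_natDegree lam hlam 0, T_leadingCoeff lam hlam 0, ?_, ?_, ?_⟩
    · simp [T, F]
    · intro i j hij hj; omega
    · intro j hj; omega
  | succ m ih =>
    obtain ⟨r, hr⟩ := ih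
    obtain ⟨s, hs, _, _⟩ := step hr (T_natDegree lam hlam (m + 1)) (T_leadingCoeff lam hlam (m + 1))
      (T_pos lam hlam 0 le_rfl (m + 1)) (fun t => wT_pos lam hlam t m)
    exact ⟨s, hs⟩

lemma Fac.rootList {f : ℝ[X]} {m : ℕ} {r : ℕ → ℝ} (h : Fac f m r) :
    rootList f = (List.range m).map r := by
  obtain ⟨_, _, h3, h4, _⟩ := h
  unfold EulerianInterlacing.rootList
  rw [h3]
  have : Multiset.map r (Multiset.range m) = (((List.range m).map r : List ℝ) : Multiset ℝ) := rfl
  rw [this, Multiset.coe_sort]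
  apply List.mergeSort_eq_self
  rw [List.pairwise_map]
  have hl := List.pairwise_lt_range (n := m)
  refine List.Pairwise.imp_of_mem ?_ hl
  intro a b ha hb hab
  exact (h4 a b hab (List.mem_range.1 hb)).le

lemma Fac.realNonpos {f : ℝ[X]} {m : ℕ} {r : ℕ → ℝ} (h : Fac f m r) : RealNonposRooted f := by
  obtain ⟨h1, h2, h3, h4, h5⟩ := h
  refine ⟨?_, ?_, ?_⟩
  · intro h; rw [h] at h2; simp at h2
  · rw [h3, h1]; simp
  · intro x hx
    rw [h3, Multiset.mem_map] at hx
    obtain ⟨i, hi, rfl⟩ := hx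
    exact (h5 i (Multiset.mem_range.1 hi)).le

/-- **Main theorem.** For all positive reals `λ_1, λ_2, …` and every `n ≥ 2`, the polynomials
`e_{n-1}` and `e_n` have degrees `n - 2` and `n - 1`, all their roots are real and nonpositive, and
`e_{n-1} ⪯ e_n`. -/
theorem result (lam : ℕ → ℝ) (hlam : ∀ k, 1 ≤ k → 0 < lam k) (n : ℕ) (hn : 2 ≤ n) :
    (e lam (n - 1)).natDegree = n - 2 ∧ (e lam n).natDegree = n - 1 ∧
      Prec (e lam (n - 1)) (e lam n) := by
  obtain ⟨m, rfl⟩ : ∃ m, n = m + 2 := ⟨n - 2, by omega⟩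
  have e1 : e lam (m + 2 - 1) = T lam m := (T_eq lam m).symm
  have e2 : e lam (m + 2) = T lam (m + 1) := (T_eq lam (m + 1)).symm
  rw [e1, e2]
  obtain ⟨r, hr⟩ := T_fac lam hlam m
  obtain ⟨s, hs, h1, h2⟩ := step hr (T_natDegree lam hlam (m + 1))
    (T_leadingCoeff lam hlam (m + 1)) (T_pos lam hlam 0 le_rfl (m + 1))
    (fun t => wT_pos lam hlam t m)
  refine ⟨T_natDegree lam hlam m, T_natDegree lam hlam (m + 1), hr.realNonpos, hs.realNonpos,
    ?_, ?_, ?_⟩
  · right
    rw [hr.rootList, hs.rootList]; simp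
  · intro i hf hg
    simp only [hr.rootList, hs.rootList, List.getElem_map, List.getElem_range]
    rw [hr.rootList, List.length_map, List.length_range] at hf
    exact (h1 i hf).le
  · intro i hf hg
    simp only [hr.rootList, hs.rootList, List.getElem_map, List.getElem_range]
    rw [hr.rootList, List.length_map, List.length_range] at hf
    exact (h2 i hf).le

end Pool.Agent.Results.MP_9d2565_co.EulerianInterlacing
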